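import Mathlib
import Pool.Agent.Helper889.Br.Amen
import Pool.Agent.Helper889.Br.Folner
import Pool.Agent.Helper889.Br.Harm
import Pool.Agent.Helper889.Br.Branch

set_option autoImplicit false

namespace Pool.Agent.Results.MP_684c87_al.NonLiouville

/-! ### Definitions -/

/-- Vertices of level `n` of the spherically homogeneous rooted tree with branching sets
`X 0, X 1, X 2, …`: the words `x_0 x_1 … x_(n-1)` with `x_i ∈ X i`. -/
abbrev Vertex (X : ℕ → Type) (n : ℕ) : Type := (i : Fin n) → X i

/-- The parent of a vertex: the word without its last letter. -/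
def parent {X : ℕ → Type} {n : ℕ} (v : Vertex X (n + 1)) : Vertex X n := fun i => v i.castSucc

/-- The vertex `w` lies in the subtree rooted at the vertex `v`. -/
def Below {X : ℕ → Type} {n m : ℕ} (v : Vertex X n) (w : Vertex X m) : Prop :=
  n ≤ m ∧ ∀ (i : ℕ) (h₁ : i < n) (h₂ : i < m), w ⟨i, h₂⟩ = v ⟨i, h₁⟩

/-- A faithful action of the group `G` on the rooted tree by automorphisms: an action on every
level, compatible with taking parents. -/
structure TreeAction (G : Type) [Group G] (X : ℕ → Type) where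
  act : ∀ n, G →* Equiv.Perm (Vertex X n)
  act_parent : ∀ n g (v : Vertex X (n + 1)), parent (act (n + 1) g v) = act n g (parent v)
  faithful : ∀ g, (∀ n (v : Vertex X n), act n g v = v) → g = 1

/-- `G` is (isomorphic to) a weakly branch group: it acts faithfully on a spherically homogeneous
rooted tree (every `X i` finite with at least two elements), transitively on each level, and the
rigid stabiliser of every vertex `v` (the elements which fix all vertices outside the subtree
rooted at `v`) is nontrivial. -/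
def IsWeaklyBranch (G : Type) [Group G] : Prop :=
  ∃ X : ℕ → Type, (∀ i, Finite (X i)) ∧ (∀ i, Nontrivial (X i)) ∧ ∃ A : TreeAction G X,
    (∀ n (v w : Vertex X n), ∃ g, A.act n g v = w) ∧
    ∀ n (v : Vertex X n), ∃ g, g ≠ 1 ∧ ∀ m (w : Vertex X m), ¬ Below v w → A.act m g w = w

/-- Amenability: there is a finitely additive probability measure on all subsets of `G` which is
invariant under left translations. -/
def IsAmenable (G : Type) [Group G] : Prop := ∃ m : Set G → ℝ, (∀ A, 0 ≤ m A) ∧ m Set.univ = 1 ∧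
  (∀ A B, Disjoint A B → m (A ∪ B) = m A + m B) ∧ ∀ g A, m ((fun x => g * x) ⁻¹' A) = m A

/-- `μ` is a finitely supported probability measure on `G` whose support generates `G` as a
semigroup. -/
def IsStep {G : Type} [Group G] (μ : G →₀ ℝ) : Prop :=
  (∀ g, 0 ≤ μ g) ∧ (μ.sum fun _ a => a) = 1 ∧ Subsemigroup.closure (μ.support : Set G) = ⊤

/-- `(G, μ)` is Liouville: every bounded function `f` with `f g = ∑ h, μ h * f (g h)` is constant. -/
def IsLiouville {G : Type} [Group G] (μ : G →₀ ℝ) : Prop :=
  ∀ f : G → ℝ, (∃ C, ∀ g, |f g| ≤ C) → (∀ g, f g = μ.sum fun h a => a * f (g * h)) → ∃ c, ∀ g, f g = c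

/-- `G` is SL: `(G, μ)` is Liouville for all finitely supported probability measures `μ` whose
support generates `G` as a semigroup. -/
def IsSL (G : Type) [Group G] : Prop := ∀ μ : G →₀ ℝ, IsStep μ → IsLiouville μ

/-! ### Proof -/

open Pool.Agent.Helper889.Br

section generic
variable {G : Type} {J : Type} [Fintype J]

theorem semigroup_top [Group G] (T : Set G) (h1 : 1 ∈ T) (hinv : ∀ x ∈ T, x⁻¹ ∈ T) (hT : Subgroup.closure T = ⊤) :
    Subsemigroup.closure T = ⊤ := by
  let K : Subgroup G :=
    { carrier := Subsemigroup.closure T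
      mul_mem' := fun ha hb => mul_mem ha hb
      one_mem' := Subsemigroup.subset_closure h1
      inv_mem' := by
        intro x hx
        have hx' : x ∈ Subsemigroup.closure T := hx
        show x⁻¹ ∈ Subsemigroup.closure T
        induction hx' using Subsemigroup.closure_induction with
        | mem y hy => exact Subsemigroup.subset_closure (hinv y hy)
        | mul a b ha hb iha ihb =>
          rw [mul_inv_rev]
          exact mul_mem (ihb hb) (iha ha) }
  have : (⊤ : Subgroup G) ≤ K := by
    rw [← hT, Subgroup.closure_le]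
    exact fun x hx => Subsemigroup.subset_closure hx
  rw [eq_top_iff]
  exact fun x _ => this (Subgroup.mem_top x)

/-- uniform measure on a finite family -/
noncomputable def um (s : J → G) : G →₀ ℝ := ∑ j, Finsupp.single (s j) (1 / (Fintype.card J : ℝ))

theorem um_sum (s : J → G) (f : G → ℝ) :
    ((um s).sum fun h a => a * f h) = (∑ j, f (s j)) / Fintype.card J := by
  unfold um
  rw [← Finsupp.sum_finsetSum_index (fun _ => by rw [zero_mul]) (fun _ _ _ => by rw [add_mul]), Finset.sum_div]
  refine Finset.sum_congr rfl fun j _ => ?_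
  rw [Finsupp.sum_single_index (by rw [zero_mul])]
  ring

theorem um_apply [DecidableEq G] (s : J → G) (g : G) :
    um s g = ∑ j, if s j = g then 1 / (Fintype.card J : ℝ) else 0 := by
  unfold um
  rw [Finsupp.finsetSum_apply]
  exact Finset.sum_congr rfl fun j _ => Finsupp.single_apply

theorem um_nonneg (s : J → G) (g : G) : 0 ≤ um s g := by
  classical
  rw [um_apply]
  exact Finset.sum_nonneg fun j _ => by split_ifs <;> positivity

theorem um_support [Nonempty J] (s : J → G) : ((um s).support : Set G) = Set.range s := by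
  classical
  ext g
  rw [Finset.mem_coe, Finsupp.mem_support_iff, Set.mem_range]
  constructor
  · intro h
    by_contra hcon
    push Not at hcon
    apply h
    rw [um_apply]
    exact Finset.sum_eq_zero fun j _ => if_neg (hcon j)
  · rintro ⟨j, rfl⟩
    have hc : (0:ℝ) < Fintype.card J := by exact_mod_cast Fintype.card_pos
    have h1 : (if s j = s j then 1 / (Fintype.card J : ℝ) else 0) ≤ um s (s j) := by
      rw [um_apply]
      exact Finset.single_le_sum (f := fun i => if s i = s j then 1 / (Fintype.card J : ℝ) else 0)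
        (fun i _ => by split_ifs <;> positivity) (Finset.mem_univ j)
    rw [if_pos rfl] at h1
    have h2 : 0 < 1 / (Fintype.card J : ℝ) := by positivity
    linarith

theorem um_symm [Group G] (s : J → G) (σ : Equiv.Perm J) (hσ : ∀ j, s (σ j) = (s j)⁻¹) (g : G) : um s g⁻¹ = um s g := by
  classical
  rw [um_apply, um_apply, ← Equiv.sum_comp σ]
  refine Finset.sum_congr rfl fun j _ => ?_
  rw [hσ]
  by_cases h : s j = g
  · rw [if_pos h, if_pos (by rw [h])]
  · rw [if_neg h, if_neg (fun hc => h (inv_injective hc))]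

end generic

section meas
variable {S : Sys} {J : Type} [Fintype J]

/-- the generators -/
noncomputable def sG (gen : J → S.H) : J ⊕ Equiv.Perm (S.X 0) → GG S := Sum.elim (fun j => dirG (gen j)) rootG

omit [Fintype J] in
theorem sG_top {gen : J → S.H} (hgen : Subgroup.closure (Set.range gen) = ⊤) :
    Subgroup.closure (Set.range (sG gen)) = ⊤ := by
  set K : Subgroup (GG S) := Subgroup.closure (Set.range (sG gen)) with hK
  have h1 : (⊤ : Subgroup S.H) ≤ K.comap dirG := by
    rw [← hgen, Subgroup.closure_le]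
    rintro _ ⟨j, rfl⟩
    exact Subgroup.subset_closure ⟨Sum.inl j, rfl⟩
  have h2 : GG S ≤ K.map (Subgroup.subtype _) := by
    conv_lhs => unfold GG
    rw [Subgroup.closure_le]
    rintro _ (⟨h, rfl⟩ | ⟨a, rfl⟩)
    · exact ⟨dirG h, h1 (Subgroup.mem_top h), rfl⟩
    · exact ⟨rootG a, Subgroup.subset_closure ⟨Sum.inr a, rfl⟩, rfl⟩
  rw [eq_top_iff]
  intro x _
  obtain ⟨y, hy, hyx⟩ := h2 x.2
  have : y = x := Subtype.ext hyx
  rw [← this]
  exact hy

theorem fg_GG {gen : J → S.H} (hgen : Subgroup.closure (Set.range gen) = ⊤) : Group.FG (GG S) :=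
  Group.fg_iff.2 ⟨_, sG_top hgen, Set.finite_range _⟩

theorem meas_GG (hf : ∀ h : S.H, h ≠ 1 → ∀ n, ∃ k, n ≤ k ∧ S.ρ k h ≠ 1) {gen : J → S.H}
    (hgen : Subgroup.closure (Set.range gen) = ⊤) (σ : Equiv.Perm J) (hσ : ∀ j, gen (σ j) = (gen j)⁻¹)
    (F : S.H → ℝ) (hF1 : ∀ v, (∑ j, F (v * gen j)) = Fintype.card J * F v) (hF2 : ∀ v, 0 ≤ F v ∧ F v ≤ 1)
    {a b : S.H} (hab : F a ≠ F b) :
    ∃ μ : GG S →₀ ℝ, IsStep μ ∧ (∀ g, μ g⁻¹ = μ g) ∧ ¬ IsLiouville μ := by
  set τ : Equiv.Perm (J ⊕ Equiv.Perm (S.X 0)) := Equiv.sumCongr σ (Equiv.inv _) with hτ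
  have hτ' : ∀ j, sG gen (τ j) = (sG gen j)⁻¹ := by
    rintro (j | q)
    · show dirG (gen (σ j)) = (dirG (gen j))⁻¹
      rw [hσ, map_inv]
    · show rootG (q⁻¹) = (rootG q)⁻¹
      rw [map_inv]
  have hcard : (0:ℝ) < Fintype.card (J ⊕ Equiv.Perm (S.X 0)) := by exact_mod_cast Fintype.card_pos
  refine ⟨um (sG gen), ⟨um_nonneg _, ?_, ?_⟩, um_symm _ τ hτ', ?_⟩
  · have := um_sum (sG gen) (fun _ => 1)
    simp only [mul_one] at this
    rw [this, Finset.sum_const, nsmul_eq_mul, mul_one, Finset.card_univ]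
    exact div_self hcard.ne'
  · rw [um_support]
    apply semigroup_top
    · refine ⟨Sum.inr 1, ?_⟩
      show rootG 1 = 1
      rw [map_one]
    · rintro _ ⟨j, rfl⟩
      exact ⟨τ j, hτ' j⟩
    · exact sG_top hgen
  · intro hL
    obtain ⟨c, hc⟩ := hL (fun g => F (gam g)⁻¹) ⟨1, fun g => by
        rw [abs_of_nonneg (hF2 _).1]; exact (hF2 _).2⟩ (fun g => by
        rw [um_sum (sG gen) (fun h => F (gam (g * h))⁻¹), eq_div_iff hcard.ne', mul_comm]
        exact (lift_harmonic hf gen F hF1 g).symm)
    have e1 := hc (dirG a)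
    have e2 := hc (dirG b)
    rw [gam_dirG hf] at e1 e2
    exact hab (e1.trans e2.symm)

end meas

/-- inversion of the generators of the germ group -/
def inv0 : Equiv.Perm JH :=
  Equiv.sumCongr (Equiv.refl _) (Equiv.sumCongr (Equiv.prodCongr (Equiv.refl _) Equiv.boolNot) (Equiv.inv _))

theorem stp_not (i : Fin 5) (b : Bool) : stp (i, !b) = - stp (i, b) := by
  unfold stp sg
  cases b
  · simp only [Bool.not_false, if_true, Bool.false_eq_true, if_false, Pi.single_neg, neg_neg]
  · simp only [Bool.not_true, if_true, Bool.false_eq_true, if_false, Pi.single_neg]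

theorem inv0_spec (j : JH) : gH (inv0 j) = (gH j)⁻¹ := by
  rcases j with _ | ⟨i, b⟩ | q
  · show ((la, 1) : Hl) = (la, 1)⁻¹
    rw [Prod.inv_mk, la_inv, inv_one]
  · show ((lt (stp (i, !b)), 1) : Hl) = (lt (stp (i, b)), 1)⁻¹
    rw [Prod.inv_mk, lt_inv, inv_one, stp_not]
  · rfl

theorem gH_top : Subgroup.closure (Set.range gH) = ⊤ := by
  apply Hl_gen
  rintro _ ((h | ⟨i, h⟩) | ⟨q, h⟩)
  · rw [Set.mem_singleton_iff] at h
    subst h
    exact Subgroup.subset_closure ⟨Sum.inl (), rfl⟩
  · subst h
    exact Subgroup.subset_closure ⟨Sum.inr (Sum.inl (i, true)), rfl⟩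
  · subst h
    exact Subgroup.subset_closure ⟨Sum.inr (Sum.inr q), rfl⟩

/-- the group -/
abbrev Gp : Type := GG S0

theorem fg : Group.FG Gp := fg_GG (S := S0) gH_top

theorem amenable : IsAmenable Gp :=
  amenable_closure (S := S0) Tg Fol_Hl (Hl_gen _ Subgroup.subset_closure)

theorem not_liouville : ∃ μ : Gp →₀ ℝ, IsStep μ ∧ (∀ g, μ g⁻¹ = μ g) ∧ ¬ IsLiouville μ := by
  obtain ⟨F, hF1, hF2, hF3⟩ := exists_harm
  exact meas_GG (S := S0) S0_faithful gH_top inv0 inv0_spec F hF1 hF2 hF3

/-- the action on the letters by permutations of `Fin 5` -/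
def al (k : ℕ) : Equiv.Perm (Fin 5) →* Equiv.Perm (S0.X k) where
  toFun := fun q =>
    { toFun := fun x => (x.1, x.2.1, q x.2.2)
      invFun := fun x => (x.1, x.2.1, q.symm x.2.2)
      left_inv := fun x => by
        obtain ⟨i, e, y⟩ := x
        show (i, e, q.symm (q y)) = (i, e, y)
        rw [Equiv.symm_apply_apply]
      right_inv := fun x => by
        obtain ⟨i, e, y⟩ := x
        show (i, e, q (q.symm y)) = (i, e, y)
        rw [Equiv.apply_symm_apply] }
  map_one' := rfl
  map_mul' := fun _ _ => rfl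

theorem al_rho (k : ℕ) (q : Equiv.Perm (Fin 5)) :
    S0.ρ k ((MonoidHom.inr Lp (Equiv.Perm (Fin 5))) q) = al (k+1) q := by
  ext1 x
  obtain ⟨i, e, y⟩ := x
  show act (k+1+2) ((1, q) : Hl) (i, e, y) = (i, e, q y)
  rw [act_apply]
  simp only [Lp.one_n, Lp.one_f, pr_zero, zero_add]
  simp [bar]

theorem dd_mem0 (n : ℕ) {q : Equiv.Perm (Fin 5)} (hq : q ∈ alternatingGroup (Fin 5)) :
    dd (S := S0) n ((1, q) : Hl) ∈ GG S0 :=
  (dd_mem (S := S0) al (MonoidHom.inr Lp (Equiv.Perm (Fin 5))) al_rho
    (fun k q hq => by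
      show ((0, 0, q 0) : Xl (k+2)) = (0, 0, 0)
      rw [hq])
    (fun k q hq => by
      show ((0, 0, q 1) : Xl (k+2)) ≠ (0, 0, 1)
      intro h
      exact hq (congrArg (fun z => z.2.2) h))
    (fun k q hq => by
      show ((0, 0, q 1) : Xl (k+2)) = (0, 0, 0)
      rw [hq]) n).1 q hq

theorem trans0 (k : ℕ) (x : S0.X (k+1)) : ∃ h, S0.ρ k h x = S0.o (k+1) := by
  obtain ⟨i, e, y⟩ := x
  have hsurj : ∃ n : B5, pr (k+1+2) n = -i := by
    choose n hn using fun j => ZMod.intCast_surjective ((-i) j)
    exact ⟨n, funext hn⟩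
  obtain ⟨n, hn⟩ := hsurj
  refine ⟨((⟨Finsupp.single 0 e, n⟩, Equiv.swap y 0) : Hl), ?_⟩
  show act (k+1+2) _ (i, e, y) = (0, 0, 0)
  rw [act_apply]
  simp only [hn, neg_add_cancel, Equiv.swap_apply_left, bar, Finsupp.mapDomain_single, pr_zero, Finsupp.single_eq_same]
  rw [CharTwo.add_self_eq_zero]

/-- the action on the levels -/
noncomputable def tree : TreeAction Gp S0.X where
  act := fun n =>
    { toFun := fun g => ind n g (TA_GG g.2)
      map_one' := by
        ext1 v
        exact pre_up n v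
      map_mul' := fun g h => by
        ext1 v
        show pre n ((g : Equiv.Perm S0.Bd) ((h : Equiv.Perm S0.Bd) (up n v)))
          = ind n g (TA_GG g.2) (pre n ((h : Equiv.Perm S0.Bd) (up n v)))
        exact pre_apply n (TA_GG g.2) _ }
  act_parent := fun n g v => by
    show pre n ((g : Equiv.Perm S0.Bd) (up (n+1) v)) = ind n g (TA_GG g.2) (parent v)
    rw [pre_apply n (TA_GG g.2)]
    congr 1
    funext i
    show up (n+1) v i = v i.castSucc
    unfold up
    rw [dif_pos (by have := i.2; omega)]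
    rfl
  faithful := fun g hg => by
    apply Subtype.ext
    ext1 x
    funext i
    have h1 := pre_apply (i+1) (TA_GG g.2) x
    have h2 : ind (i+1) g (TA_GG g.2) (pre (i+1) x) = pre (i+1) x := hg (i+1) _
    rw [h2] at h1
    exact congrFun h1 ⟨i, by omega⟩

theorem tree_act (n : ℕ) (g : Gp) (v : Vertex S0.X n) : tree.act n g v = pre n ((g : Equiv.Perm S0.Bd) (up n v)) := rfl

theorem weaklyBranch : IsWeaklyBranch Gp := by
  refine ⟨S0.X, fun i => inferInstance, fun i => ⟨⟨S0.o i, S0.t i, S0.hot i⟩⟩, tree, ?_, ?_⟩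
  · intro n v w
    obtain ⟨g1, h1, h1'⟩ := trans_GG (S := S0) trans0 n (up n v)
    obtain ⟨g2, h2, h2'⟩ := trans_GG (S := S0) trans0 n (up n w)
    refine ⟨⟨g2⁻¹ * g1, mul_mem (inv_mem h2) h1⟩, ?_⟩
    rw [tree_act]
    show pre n (g2⁻¹ (g1 (up n v))) = w
    have e : g2⁻¹ (g2 (up n w)) = up n w := g2.symm_apply_apply _
    have : pre n (g2⁻¹ (g1 (up n v))) = pre n (g2⁻¹ (g2 (up n w))) := by
      rw [pre_eq_iff, ← TA_inv (TA_GG h2), ← pre_eq_iff, h1', h2']
    rw [this, e, pre_up]
  · intro n v
    obtain ⟨g, hg, hg'⟩ := trans_GG (S := S0) trans0 n (up n v)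
    set q : Equiv.Perm (Fin 5) := Equiv.swap 1 2 * Equiv.swap 3 4 with hq
    have hqA : q ∈ alternatingGroup (Fin 5) := by
      rw [Equiv.Perm.mem_alternatingGroup]; decide
    have hq1 : ((1, q) : Hl) ≠ 1 := by
      intro h
      have := congrArg (fun z : Hl => z.2 1) h
      revert this
      decide
    set r : Equiv.Perm S0.Bd := g⁻¹ * dd (S := S0) n ((1, q) : Hl) * g with hr
    have hrG : r ∈ GG S0 := mul_mem (mul_mem (inv_mem hg) (dd_mem0 n hqA)) hg
    have hri : ∀ x, g⁻¹ (g x) = x := fun x => g.symm_apply_apply x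
    refine ⟨⟨r, hrG⟩, ?_, ?_⟩
    · intro h
      have h1 : r = 1 := congrArg Subtype.val h
      have h2 : dd (S := S0) n ((1, q) : Hl) = 1 := by
        have : dd (S := S0) n ((1, q) : Hl) = g * r * g⁻¹ := by rw [hr]; group
        rw [this, h1]; group
      -- germs at the base point
      have h3 : dd (S := S0) n ((1, q) : Hl) = dd (S := S0) n (1 : Hl) := by rw [h2, map_one]
      have hp : pre n (oo (S := S0)) = ow n := rfl
      have key : ∀ h : Hl, GermAt (dd (S := S0) n h) (oo (S := S0)) h n := by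
        intro h
        have e1 : dd (S := S0) n h (oo (S := S0)) = oo := by
          rw [dd_pos (S := S0) h hp, ← dirPt_zero_of_pre hp]
          exact dir_oo (S := S0) h
        refine ⟨fun _ _ => rfl, fun i _ => by rw [e1]; rfl, fun z hz => ?_⟩
        have hz' : pre n z = ow n := by rw [← hp, pre_eq_iff]; exact hz
        rw [dd_pos (S := S0) h hz', e1]
        funext i
        split_ifs with hi
        · rw [dirPt_le _ _ hi.le]; exact hz i hi
        · rfl
      have a := key ((1, q) : Hl)
      rw [h3] at a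
      exact hq1 (Germ_unique (S := S0) S0_faithful a (key 1))
    · intro m w hw
      rw [tree_act]
      show pre m (r (up m w)) = w
      by_cases hnm : n ≤ m
      · have hne : pre n (up m w) ≠ v := by
          intro h
          apply hw
          refine ⟨hnm, fun i h1 h2 => ?_⟩
          rw [← h]
          show w ⟨i, h2⟩ = up m w i
          unfold up
          rw [dif_pos h2]
        have hne' : pre n (g (up m w)) ≠ ow n := by
          intro h
          apply hne
          rw [← pre_up n v, pre_eq_iff, TA_GG hg, ← pre_eq_iff, h, hg']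
        have : r (up m w) = up m w := by
          rw [hr, Equiv.Perm.mul_apply, Equiv.Perm.mul_apply, dd_neg (S := S0) _ hne', hri]
        rw [this, pre_up]
      · have h1 : pre m (r (up m w)) = pre m (g⁻¹ (g (up m w))) := by
          rw [hr, Equiv.Perm.mul_apply, Equiv.Perm.mul_apply, pre_eq_iff, ← TA_inv (TA_GG hg), ← pre_eq_iff]
          exact pre_mono (by omega) (pre_dd (S := S0) n _ _)
        rw [h1, hri, pre_up]

/-- **Theorem.** There is a finitely generated amenable weakly branch group `G` which is not SL: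
there is a finitely supported probability measure `μ` on `G`, which is moreover symmetric, whose
support generates `G` as a semigroup and such that `(G, μ)` is not Liouville. -/
theorem result : ∃ (G : Type) (_ : Group G), Group.FG G ∧ IsAmenable G ∧ IsWeaklyBranch G ∧ ¬ IsSL G ∧
    ∃ μ : G →₀ ℝ, IsStep μ ∧ (∀ g, μ g⁻¹ = μ g) ∧ ¬ IsLiouville μ := by
  obtain ⟨μ, h1, h2, h3⟩ := not_liouville
  exact ⟨Gp, inferInstance, fg, amenable, weaklyBranch, fun h => h3 (h μ h1), μ, h1, h2, h3⟩

end Pool.Agent.Results.MP_684c87_al.NonLiouville
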